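import Mathlib

open scoped InnerProductSpace NNReal ComplexOrder
open ContinuousLinearMap Polynomial

namespace R923.SQ

variable {H K : Type*} [NormedAddCommGroup H] [InnerProductSpace ℂ H] [CompleteSpace H]
  [NormedAddCommGroup K] [InnerProductSpace ℂ K] [CompleteSpace K]

lemma pow_intertwine {a : K →L[ℂ] K} {b : H →L[ℂ] H} {S : H →L[ℂ] K}
    (h : a ∘L S = S ∘L b) (n : ℕ) : (a ^ n) ∘L S = S ∘L (b ^ n) := by
  induction n with
  | zero => ext x; simp
  | succ n ih =>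
    ext x
    have h1 := congrArg (fun L : H →L[ℂ] K => L (b x)) ih
    have h2 := congrArg (fun L : H →L[ℂ] K => L x) h
    simp only [ContinuousLinearMap.comp_apply] at h1 h2
    simp only [pow_succ, ContinuousLinearMap.comp_apply, ContinuousLinearMap.mul_apply]
    rw [h2, h1]

lemma aeval_intertwine {a : K →L[ℂ] K} {b : H →L[ℂ] H} {S : H →L[ℂ] K}
    (h : a ∘L S = S ∘L b) (p : ℝ[X]) :
    (aeval a p) ∘L S = S ∘L (aeval b p) := by
  induction p using Polynomial.induction_on' with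
  | add p q hp hq => simp only [map_add, ContinuousLinearMap.add_comp, ContinuousLinearMap.comp_add, hp, hq]
  | monomial n c =>
    rw [aeval_monomial, aeval_monomial, ← Algebra.smul_def, ← Algebra.smul_def]
    ext x
    have h1 := congrArg (fun L : H →L[ℂ] K => L x) (pow_intertwine h n)
    simp only [ContinuousLinearMap.comp_apply] at h1
    simp only [ContinuousLinearMap.comp_apply, ContinuousLinearMap.smul_apply]
    rw [h1]
    exact ((S.restrictScalars ℝ).map_smul c _).symm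

lemma norm_cfc_sub_aeval_le {a : K →L[ℂ] K} (ha : IsSelfAdjoint a) {f : ℝ → ℝ}
    (hf : Continuous f) (p : ℝ[X]) {ε : ℝ} (hε : 0 ≤ ε)
    (h : ∀ x ∈ spectrum ℝ a, |p.eval x - f x| ≤ ε) :
    ‖cfc f a - aeval a p‖ ≤ ε := by
  rw [← cfc_polynomial p a ha, ← cfc_sub f (fun x => p.eval x) a hf.continuousOn (p.continuous).continuousOn]
  refine norm_cfc_le hε fun x hx => ?_
  rw [Real.norm_eq_abs, abs_sub_comm]
  exact h x hx

lemma cfc_intertwine {a : K →L[ℂ] K} {b : H →L[ℂ] H} {S : H →L[ℂ] K}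
    (ha : IsSelfAdjoint a) (hb : IsSelfAdjoint b)
    (h : a ∘L S = S ∘L b) {f : ℝ → ℝ} (hf : Continuous f) :
    (cfc f a) ∘L S = S ∘L (cfc f b) := by
  obtain ⟨M, hM⟩ : ∃ M : ℝ, (∀ x ∈ spectrum ℝ a, x ∈ Set.Icc (-M) M) ∧
      (∀ x ∈ spectrum ℝ b, x ∈ Set.Icc (-M) M) := by
    refine ⟨max ‖a‖ ‖b‖, ?_, ?_⟩
    · intro x hx
      have h1 : ‖x‖ ≤ ‖a‖ := by
        rcases subsingleton_or_nontrivial K with hK | hK
        · exfalso
          have : Subsingleton (K →L[ℂ] K) := inferInstance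
          simp [spectrum.of_subsingleton] at hx
        · exact spectrum.norm_le_norm_of_mem hx
      rw [Real.norm_eq_abs] at h1
      exact abs_le.mp (h1.trans (le_max_left _ _))
    · intro x hx
      have h1 : ‖x‖ ≤ ‖b‖ := by
        rcases subsingleton_or_nontrivial H with hK | hK
        · exfalso
          have : Subsingleton (H →L[ℂ] H) := inferInstance
          simp [spectrum.of_subsingleton] at hx
        · exact spectrum.norm_le_norm_of_mem hx
      rw [Real.norm_eq_abs] at h1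
      exact abs_le.mp (h1.trans (le_max_right _ _))
  have key : ∀ ε : ℝ, 0 < ε → ‖(cfc f a) ∘L S - S ∘L (cfc f b)‖ ≤ ε * (2 * ‖S‖) := by
    intro ε hε
    obtain ⟨p, hp⟩ := exists_polynomial_near_of_continuousOn (-M) M f hf.continuousOn ε hε
    have h1 := norm_cfc_sub_aeval_le ha hf p hε.le (fun x hx => (hp x (hM.1 x hx)).le)
    have h2 := norm_cfc_sub_aeval_le hb hf p hε.le (fun x hx => (hp x (hM.2 x hx)).le)
    have h3 : (cfc f a) ∘L S - S ∘L (cfc f b) =
        (cfc f a - aeval a p) ∘L S - S ∘L (cfc f b - aeval b p) := by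
      rw [ContinuousLinearMap.sub_comp, ContinuousLinearMap.comp_sub, aeval_intertwine h p]
      abel
    rw [h3]
    calc ‖(cfc f a - aeval a p) ∘L S - S ∘L (cfc f b - aeval b p)‖
        ≤ ‖(cfc f a - aeval a p) ∘L S‖ + ‖S ∘L (cfc f b - aeval b p)‖ := norm_sub_le _ _
      _ ≤ ‖cfc f a - aeval a p‖ * ‖S‖ + ‖S‖ * ‖cfc f b - aeval b p‖ :=
          add_le_add (opNorm_comp_le _ _) (opNorm_comp_le _ _)
      _ ≤ ε * ‖S‖ + ‖S‖ * ε := by gcongr
      _ = ε * (2 * ‖S‖) := by ring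
  have h0 : ‖(cfc f a) ∘L S - S ∘L (cfc f b)‖ ≤ 0 := by
    by_contra hcon
    push_neg at hcon
    have hS : 0 < 2 * ‖S‖ + 1 := by positivity
    have := key (‖(cfc f a) ∘L S - S ∘L (cfc f b)‖ / (2 * (2 * ‖S‖ + 1))) (by positivity)
    have h4 : ‖(cfc f a) ∘L S - S ∘L (cfc f b)‖ / (2 * (2 * ‖S‖ + 1)) * (2 * ‖S‖) <
        ‖(cfc f a) ∘L S - S ∘L (cfc f b)‖ := by
      rw [div_mul_eq_mul_div, div_lt_iff₀ (by positivity)]
      nlinarith [norm_nonneg S]
    linarith
  have h5 := norm_le_zero_iff.mp h0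
  exact sub_eq_zero.mp h5

/-- real powers of nonnegative operators intertwine -/
lemma rpow_intertwine {a : K →L[ℂ] K} {b : H →L[ℂ] H} {S : H →L[ℂ] K}
    (ha : 0 ≤ a) (hb : 0 ≤ b) (h : a ∘L S = S ∘L b) {t : ℝ} (ht : 0 ≤ t) :
    (a ^ t) ∘L S = S ∘L (b ^ t) := by
  rw [CFC.rpow_eq_cfc_real (a := a) (y := t) ha, CFC.rpow_eq_cfc_real (a := b) (y := t) hb]
  exact cfc_intertwine ha.isSelfAdjoint hb.isSelfAdjoint h (Real.continuous_rpow_const ht)

end R923.SQ
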