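import Pool.Agent.R923.SQ.A1

open scoped InnerProductSpace NNReal ComplexOrder
open ContinuousLinearMap

namespace R923.SQ

variable {H K : Type*} [NormedAddCommGroup H] [InnerProductSpace ℂ H] [CompleteSpace H]
  [NormedAddCommGroup K] [InnerProductSpace ℂ K] [CompleteSpace K]

lemma conj_mono (S : H →L[ℂ] K) {A B : K →L[ℂ] K} (h : A ≤ B) :
    adjoint S ∘L A ∘L S ≤ adjoint S ∘L B ∘L S := by
  rw [ContinuousLinearMap.le_def] at *
  have := h.adjoint_conj S
  convert this using 1
  rw [ContinuousLinearMap.sub_comp, ContinuousLinearMap.comp_sub]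

lemma conj_nonneg (S : H →L[ℂ] K) {A : K →L[ℂ] K} (h : 0 ≤ A) :
    0 ≤ adjoint S ∘L A ∘L S := by
  have := conj_mono S h
  simpa using this

/-- Hansen's inequality for isometries -/
lemma hansen_isometry {S : H →L[ℂ] K} (hS : (adjoint S) ∘L S = 1) {X : K →L[ℂ] K}
    (hX : 0 ≤ X) {t : ℝ} (ht : t ∈ Set.Icc (0:ℝ) 1) :
    (adjoint S) ∘L (X ^ t) ∘L S ≤ ((adjoint S) ∘L X ∘L S) ^ t := by
  have hSx : ∀ x : H, adjoint S (S x) = x := fun x => by
    have := congrArg (fun L : H →L[ℂ] H => L x) hS
    simpa using this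
  set u : K →L[ℂ] K := (2:ℂ) • (S ∘L adjoint S) - 1 with hu
  have hux : ∀ y : K, u y = (2:ℂ) • S (adjoint S y) - y := fun y => by simp [hu]
  have husa : IsSelfAdjoint u := by
    rw [hu]
    refine IsSelfAdjoint.sub ?_ (IsSelfAdjoint.one _)
    refine IsSelfAdjoint.smul (by simp [IsSelfAdjoint]) ?_
    rw [ContinuousLinearMap.isSelfAdjoint_iff', ContinuousLinearMap.adjoint_comp, adjoint_adjoint]
  have hadj : adjoint u = u := by
    have := husa.star_eq
    rwa [ContinuousLinearMap.star_eq_adjoint] at this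
  have huu : u * u = 1 := by
    ext y
    rw [ContinuousLinearMap.mul_apply, hux, hux]
    simp only [map_sub, map_smul, hSx]
    simp only [ContinuousLinearMap.one_apply]
    module
  have huS : u ∘L S = S := by
    ext x
    rw [ContinuousLinearMap.comp_apply, hux, hSx]
    module
  have hSu : adjoint S ∘L u = adjoint S := by
    have := congrArg adjoint huS
    rwa [ContinuousLinearMap.adjoint_comp, hadj] at this
  have hY : 0 ≤ u * X * u := by
    have := conj_nonneg u hX
    rw [hadj] at this
    exact this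
  -- conjugation of powers
  have hconj : (u * X * u) ^ t = u * X ^ t * u := by
    have h1 : (u * X * u) ∘L u = u ∘L X := by
      change (u * X * u) * u = u * X
      rw [mul_assoc, huu, mul_one]
    have h2 := rpow_intertwine hY hX h1 ht.1
    change (u * X * u) ^ t * u = u * X ^ t at h2
    calc (u * X * u) ^ t = (u * X * u) ^ t * (u * u) := by rw [huu, mul_one]
      _ = ((u * X * u) ^ t * u) * u := (mul_assoc _ _ _).symm
      _ = u * X ^ t * u := by rw [h2]
  set a : K →L[ℂ] K := (1/2 : ℝ) • X + (1/2 : ℝ) • (u * X * u) with ha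
  have hconc : (1/2 : ℝ) • X ^ t + (1/2 : ℝ) • (u * X * u) ^ t ≤ a ^ t :=
    (CFC.concaveOn_rpow ht).2 (Set.mem_Ici.mpr hX) (Set.mem_Ici.mpr hY) (by norm_num) (by norm_num)
      (by norm_num)
  have ha0 : 0 ≤ a := add_nonneg (smul_nonneg (by norm_num) hX) (smul_nonneg (by norm_num) hY)
  set b : H →L[ℂ] H := (adjoint S) ∘L X ∘L S with hb
  have hb0 : 0 ≤ b := conj_nonneg S hX
  have huau : u * a * u = a := by
    rw [ha, mul_add, add_mul, mul_smul_comm, smul_mul_assoc, mul_smul_comm, smul_mul_assoc]
    have : u * (u * X * u) * u = X := by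
      calc u * (u * X * u) * u = (u * u) * X * (u * u) := by noncomm_ring
        _ = X := by rw [huu, one_mul, mul_one]
    rw [this, add_comm]
  have hau : a * u = u * a := by
    calc a * u = (u * a * u) * u := by rw [huau]
      _ = u * a * (u * u) := by noncomm_ring
      _ = u * a := by rw [huu, mul_one]
  have hSaS : adjoint S ∘L a ∘L S = b := by
    rw [ha]
    ext x
    have e1 : adjoint S (u (X (u (S x)))) = adjoint S (X (S x)) := by
      have h1 := congrArg (fun L : H →L[ℂ] K => L x) huS
      simp only [ContinuousLinearMap.comp_apply] at h1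
      rw [h1]
      have h2 := congrArg (fun L : K →L[ℂ] H => L (X (S x))) hSu
      simpa using h2
    simp only [ContinuousLinearMap.comp_apply, ContinuousLinearMap.add_apply,
      ContinuousLinearMap.smul_apply, ContinuousLinearMap.mul_apply, map_add, hb]
    rw [show adjoint S ((1/2:ℝ) • X (S x)) = (1/2:ℝ) • adjoint S (X (S x)) from
        ((adjoint S).restrictScalars ℝ).map_smul _ _,
      show adjoint S ((1/2:ℝ) • u (X (u (S x)))) = (1/2:ℝ) • adjoint S (u (X (u (S x)))) from
        ((adjoint S).restrictScalars ℝ).map_smul _ _, e1]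
    module
  have hint : a ∘L S = S ∘L b := by
    -- S S* = (u+1)/2 commutes with a
    rw [← hSaS]
    ext x
    simp only [ContinuousLinearMap.comp_apply]
    have h1 : u (a (S x)) = a (S x) := by
      have h2 := congrArg (fun L : K →L[ℂ] K => L (S x)) hau
      simp only [ContinuousLinearMap.mul_apply] at h2
      have h3 := congrArg (fun L : H →L[ℂ] K => L x) huS
      simp only [ContinuousLinearMap.comp_apply] at h3
      rw [← h2, h3]
    rw [hux] at h1
    have h4 : (2:ℂ) • S (adjoint S (a (S x))) = (2:ℂ) • a (S x) := by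
      rw [two_smul ℂ (a (S x))]
      exact sub_eq_iff_eq_add.mp h1
    exact (smul_right_injective K (two_ne_zero : (2:ℂ) ≠ 0) h4).symm
  have hint' := rpow_intertwine ha0 hb0 hint ht.1
  have hfin : adjoint S ∘L (a ^ t) ∘L S = b ^ t := by
    rw [hint']
    ext x
    simp [hSx]
  rw [← hfin]
  have hmono := conj_mono S hconc
  refine le_trans (le_of_eq ?_) hmono
  rw [hconj]
  ext x
  have e1 : adjoint S (u ((X ^ t) (u (S x)))) = adjoint S ((X ^ t) (S x)) := by
    have h1 := congrArg (fun L : H →L[ℂ] K => L x) huS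
    simp only [ContinuousLinearMap.comp_apply] at h1
    rw [h1]
    have h2 := congrArg (fun L : K →L[ℂ] H => L ((X ^ t) (S x))) hSu
    simpa using h2
  simp only [ContinuousLinearMap.comp_apply, ContinuousLinearMap.add_apply,
    ContinuousLinearMap.smul_apply, ContinuousLinearMap.mul_apply, map_add]
  rw [show adjoint S ((1/2:ℝ) • (X ^ t) (S x)) = (1/2:ℝ) • adjoint S ((X ^ t) (S x)) from
        ((adjoint S).restrictScalars ℝ).map_smul _ _,
      show adjoint S ((1/2:ℝ) • u ((X ^ t) (u (S x)))) = (1/2:ℝ) • adjoint S (u ((X ^ t) (u (S x)))) from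
        ((adjoint S).restrictScalars ℝ).map_smul _ _, e1]
  module

end R923.SQ
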