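import Pool.Agent.R923.SQ.A2

open scoped InnerProductSpace NNReal ComplexOrder
open ContinuousLinearMap

namespace R923.SQ

variable {H K : Type*} [NormedAddCommGroup H] [InnerProductSpace ℂ H] [CompleteSpace H]
  [NormedAddCommGroup K] [InnerProductSpace ℂ K] [CompleteSpace K]

/-- Hansen's inequality for contractions -/
lemma hansen_contraction {W : H →L[ℂ] K} (hW : (adjoint W) ∘L W ≤ 1) {Z : K →L[ℂ] K}
    (hZ : 0 ≤ Z) {t : ℝ} (ht0 : 0 < t) (ht1 : t ≤ 1) :
    (adjoint W) ∘L (Z ^ t) ∘L W ≤ ((adjoint W) ∘L Z ∘L W) ^ t := by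
  set D : H →L[ℂ] H := CFC.sqrt (1 - (adjoint W) ∘L W) with hD
  have hD0 : 0 ≤ D := CFC.sqrt_nonneg _
  have hDD : D * D = 1 - (adjoint W) ∘L W := CFC.sqrt_mul_sqrt_self _ (sub_nonneg.mpr hW)
  have hDsa : adjoint D = D := by
    have := hD0.isSelfAdjoint.star_eq
    rwa [ContinuousLinearMap.star_eq_adjoint] at this
  -- the inclusions
  let e : (K × H) ≃L[ℂ] WithLp 2 (K × H) := (WithLp.prodContinuousLinearEquiv 2 ℂ K H).symm
  let J₁ : K →L[ℂ] WithLp 2 (K × H) := e.toContinuousLinearMap ∘L (ContinuousLinearMap.inl ℂ K H)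
  let J₂ : H →L[ℂ] WithLp 2 (K × H) := e.toContinuousLinearMap ∘L (ContinuousLinearMap.inr ℂ K H)
  have inner_J11 : ∀ x y : K, ⟪J₁ x, J₁ y⟫_ℂ = ⟪x, y⟫_ℂ := fun x y => by
    simp [J₁, e, WithLp.prod_inner_apply]
  have inner_J22 : ∀ x y : H, ⟪J₂ x, J₂ y⟫_ℂ = ⟪x, y⟫_ℂ := fun x y => by
    simp [J₂, e, WithLp.prod_inner_apply]
  have inner_J12 : ∀ (x : K) (y : H), ⟪J₁ x, J₂ y⟫_ℂ = 0 := fun x y => by
    simp [J₁, J₂, e, WithLp.prod_inner_apply]
  have inner_J21 : ∀ (x : H) (y : K), ⟪J₂ x, J₁ y⟫_ℂ = 0 := fun x y => by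
    simp [J₁, J₂, e, WithLp.prod_inner_apply]
  have J11 : ∀ x, adjoint J₁ (J₁ x) = x := fun x => by
    refine ext_inner_left ℂ fun v => ?_
    rw [adjoint_inner_right, inner_J11]
  have J22 : ∀ x, adjoint J₂ (J₂ x) = x := fun x => by
    refine ext_inner_left ℂ fun v => ?_
    rw [adjoint_inner_right, inner_J22]
  have J12 : ∀ x, adjoint J₁ (J₂ x) = 0 := fun x => by
    refine ext_inner_left ℂ fun v => ?_
    rw [adjoint_inner_right, inner_J12, inner_zero_right]
  have J21 : ∀ x, adjoint J₂ (J₁ x) = 0 := fun x => by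
    refine ext_inner_left ℂ fun v => ?_
    rw [adjoint_inner_right, inner_J21, inner_zero_right]
  let S : H →L[ℂ] WithLp 2 (K × H) := J₁ ∘L W + J₂ ∘L D
  have hSadj : adjoint S = adjoint W ∘L adjoint J₁ + D ∘L adjoint J₂ := by
    simp only [S, map_add, ContinuousLinearMap.adjoint_comp, hDsa]
  have hS : adjoint S ∘L S = 1 := by
    rw [hSadj]
    ext x
    have h1 := congrArg (fun L : H →L[ℂ] H => L x) hDD
    simp only [ContinuousLinearMap.mul_apply, ContinuousLinearMap.sub_apply,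
      ContinuousLinearMap.one_apply, ContinuousLinearMap.comp_apply] at h1
    simp only [S, ContinuousLinearMap.comp_apply, ContinuousLinearMap.add_apply, map_add, J11, J12,
      J21, J22, map_zero, add_zero, zero_add, ContinuousLinearMap.one_apply]
    rw [h1]
    abel
  let X : WithLp 2 (K × H) →L[ℂ] WithLp 2 (K × H) := J₁ ∘L Z ∘L adjoint J₁
  have hX : 0 ≤ X := by
    have := conj_nonneg (adjoint J₁) hZ
    rwa [adjoint_adjoint] at this
  have hi1 : X ∘L J₁ = J₁ ∘L Z := by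
    ext1 x
    simp only [X, ContinuousLinearMap.comp_apply, J11]
  have hi2 : X ∘L J₂ = J₂ ∘L (0 : H →L[ℂ] H) := by
    ext1 x
    simp only [X, ContinuousLinearMap.comp_apply, J12, map_zero, ContinuousLinearMap.zero_apply]
  have hp1 := rpow_intertwine hX hZ hi1 ht0.le
  have hp2 := rpow_intertwine hX le_rfl hi2 ht0.le
  have hz : (0 : H →L[ℂ] H) ^ t = 0 := CFC.zero_rpow ht0.ne'
  rw [hz] at hp2
  have main := hansen_isometry hS hX (t := t) ⟨ht0.le, ht1⟩
  have e1 : adjoint S ∘L (X ^ t) ∘L S = adjoint W ∘L (Z ^ t) ∘L W := by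
    ext1 x
    have a1 : ∀ y, (X ^ t) (J₁ y) = J₁ ((Z ^ t) y) := fun y => by
      have := congrArg (fun L : K →L[ℂ] WithLp 2 (K × H) => L y) hp1
      simpa using this
    have a2 : ∀ y, (X ^ t) (J₂ y) = 0 := fun y => by
      have := congrArg (fun L : H →L[ℂ] WithLp 2 (K × H) => L y) hp2
      simpa using this
    rw [hSadj]
    simp only [S, ContinuousLinearMap.comp_apply, ContinuousLinearMap.add_apply, map_add, a1, a2,
      J11, J21, map_zero, add_zero]
  have e2 : adjoint S ∘L X ∘L S = adjoint W ∘L Z ∘L W := by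
    ext1 x
    have a1 : ∀ y, X (J₁ y) = J₁ (Z y) := fun y => by
      simp only [X, ContinuousLinearMap.comp_apply, J11]
    have a2 : ∀ y, X (J₂ y) = 0 := fun y => by
      simp only [X, ContinuousLinearMap.comp_apply, J12, map_zero]
    rw [hSadj]
    simp only [S, ContinuousLinearMap.comp_apply, ContinuousLinearMap.add_apply, map_add, a1, a2,
      J11, J21, map_zero, add_zero]
  rw [e1, e2] at main
  exact main

end R923.SQ
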