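import Pool.Agent.R923.SQ.A3

open scoped InnerProductSpace NNReal ComplexOrder
open ContinuousLinearMap

namespace R923.SQ

variable {H K : Type*} [NormedAddCommGroup H] [InnerProductSpace ℂ H] [CompleteSpace H]
  [NormedAddCommGroup K] [InnerProductSpace ℂ K] [CompleteSpace K]

lemma adjoint_comp_self_le_one {W : H →L[ℂ] K} (h : W ∘L adjoint W ≤ 1) :
    adjoint W ∘L W ≤ 1 := by
  have h1 : ∀ y : K, ‖adjoint W y‖ ≤ 1 * ‖y‖ := by
    intro y
    rw [ContinuousLinearMap.le_def] at h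
    have h2 := h.re_inner_nonneg_left y
    simp only [ContinuousLinearMap.sub_apply, ContinuousLinearMap.one_apply,
      ContinuousLinearMap.comp_apply, inner_sub_left, map_sub] at h2
    have h3 : RCLike.re ⟪W (adjoint W y), y⟫_ℂ = ‖adjoint W y‖ ^ 2 := by
      rw [← adjoint_inner_right, inner_self_eq_norm_sq]
    have h4 : RCLike.re ⟪y, y⟫_ℂ = ‖y‖ ^ 2 := inner_self_eq_norm_sq y
    rw [h3, h4] at h2
    rw [one_mul]
    exact le_of_sq_le_sq (by linarith) (norm_nonneg _)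
  have h2 : ‖adjoint W‖ ≤ 1 := opNorm_le_bound _ zero_le_one h1
  have h3 : ‖W‖ ≤ 1 := by rwa [LinearIsometryEquiv.norm_map] at h2
  rw [ContinuousLinearMap.le_def]
  refine ContinuousLinearMap.isPositive_def.mpr ⟨?_, fun x => ?_⟩
  · refine ContinuousLinearMap.isSelfAdjoint_iff_isSymmetric.mp ?_
    rw [ContinuousLinearMap.isSelfAdjoint_iff', map_sub, ContinuousLinearMap.adjoint_comp,
      adjoint_adjoint]
    congr 1
    rw [← ContinuousLinearMap.star_eq_adjoint, star_one]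
  · simp only [ContinuousLinearMap.reApplyInnerSelf_apply, ContinuousLinearMap.sub_apply,
      ContinuousLinearMap.one_apply, ContinuousLinearMap.comp_apply, inner_sub_left, map_sub]
    rw [adjoint_inner_left, inner_self_eq_norm_sq, inner_self_eq_norm_sq]
    have h4 : ‖W x‖ ≤ ‖x‖ := by
      calc ‖W x‖ ≤ ‖W‖ * ‖x‖ := le_opNorm _ _
        _ ≤ 1 * ‖x‖ := by gcongr
        _ = ‖x‖ := one_mul _
    have := pow_le_pow_left₀ (norm_nonneg _) h4 2
    linarith

lemma star3_strict {V : H →L[ℂ] K} {R : K →L[ℂ] K} (hR : IsStrictlyPositive R)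
    (hV : V ∘L adjoint V ≤ R) {s p : ℕ} (hsp : s ≤ p) :
    adjoint V ∘L (R ^ s) ∘L V ≤
      (adjoint V ∘L (R ^ p) ∘L V) ^ (((s:ℝ) + 1)/((p:ℝ)+1)) := by
  have hR0 : 0 ≤ R := hR.nonneg
  set Q : K →L[ℂ] K := R ^ (1/2 : ℝ) with hQ
  set P : K →L[ℂ] K := R ^ (-(1/2) : ℝ) with hP
  have hQP : Q * P = 1 := CFC.rpow_mul_rpow_neg _ hR
  have hPQ : P * Q = 1 := CFC.rpow_neg_mul_rpow _ hR
  have hQQ : Q * Q = R := by
    rw [hQ, ← CFC.rpow_add hR.isUnit]
    norm_num
    exact CFC.rpow_one R hR0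
  have hPadj : adjoint P = P := by
    have := (CFC.rpow_nonneg (a := R) (y := -(1/2))).isSelfAdjoint.star_eq
    rwa [ContinuousLinearMap.star_eq_adjoint] at this
  have hQadj : adjoint Q = Q := by
    have := (CFC.rpow_nonneg (a := R) (y := 1/2)).isSelfAdjoint.star_eq
    rwa [ContinuousLinearMap.star_eq_adjoint] at this
  set W : H →L[ℂ] K := P ∘L V with hWdef
  have hWadj : adjoint W = adjoint V ∘L P := by
    rw [hWdef, ContinuousLinearMap.adjoint_comp, hPadj]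
  have hWW : W ∘L adjoint W ≤ 1 := by
    have h1 := conj_mono P hV
    rw [hPadj] at h1
    have h2 : P ∘L R ∘L P = 1 := by
      change P * (R * P) = 1
      rw [← hQQ, mul_assoc Q Q P, hQP, mul_one, hPQ]
    rw [h2] at h1
    rw [hWadj, hWdef]
    exact h1
  have hW1 := adjoint_comp_self_le_one hWW
  -- powers
  have hpow : ∀ m : ℕ, adjoint W ∘L (R ^ (m+1)) ∘L W = adjoint V ∘L (R ^ m) ∘L V := by
    intro m
    have hcomm : Q * R ^ m = R ^ m * Q := by
      have : Commute Q R := by rw [← hQQ]; exact (Commute.refl Q).mul_right (Commute.refl Q)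
      exact (this.pow_right m).eq
    have h1 : P * (R ^ (m+1) * P) = R ^ m := by
      calc P * (R ^ (m+1) * P) = P * (R ^ m * (Q * Q) * P) := by rw [pow_succ, hQQ]
        _ = P * (R ^ m * Q * (Q * P)) := by noncomm_ring
        _ = P * (Q * R ^ m) := by rw [hQP, mul_one, hcomm]
        _ = (P * Q) * R ^ m := by rw [mul_assoc]
        _ = R ^ m := by rw [hPQ, one_mul]
    rw [hWadj, hWdef]
    ext x
    have h2 := congrArg (fun L : K →L[ℂ] K => L (V x)) h1
    simp only [ContinuousLinearMap.mul_apply] at h2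
    simp only [ContinuousLinearMap.comp_apply]
    rw [h2]
  have hp1 : (0:ℝ) < (p:ℝ) + 1 := by positivity
  have ht0 : 0 < ((s:ℝ) + 1)/((p:ℝ)+1) := by positivity
  have ht1 : ((s:ℝ) + 1)/((p:ℝ)+1) ≤ 1 := by
    rw [div_le_one hp1]
    have : (s:ℝ) ≤ p := by exact_mod_cast hsp
    linarith
  have hZ : 0 ≤ R ^ (p+1) := by
    rw [← CFC.rpow_natCast R (p+1) hR0]
    exact CFC.rpow_nonneg
  have hpw : (R ^ (p+1)) ^ (((s:ℝ) + 1)/((p:ℝ)+1)) = R ^ (s+1) := by
    rw [← CFC.rpow_natCast R (p+1) hR0, ← CFC.rpow_natCast R (s+1) hR0,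
      CFC.rpow_rpow_of_exponent_nonneg R _ _ (by positivity) ht0.le hR0]
    congr 1
    push_cast
    field_simp
  have main := hansen_contraction hW1 hZ ht0 ht1
  rw [hpw, hpow s, hpow p] at main
  exact main

lemma star3 {V : H →L[ℂ] K} {R : K →L[ℂ] K} (hR : 0 ≤ R)
    (hV : V ∘L adjoint V ≤ R) {s p : ℕ} (hsp : s ≤ p) :
    adjoint V ∘L (R ^ s) ∘L V ≤
      (adjoint V ∘L (R ^ p) ∘L V) ^ (((s:ℝ) + 1)/((p:ℝ)+1)) := by
  set Re : ℝ → (K →L[ℂ] K) := fun ε => R + ε • 1 with hRe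
  have hp1 : (0:ℝ) < (p:ℝ) + 1 := by positivity
  set t : ℝ≥0 := ⟨((s:ℝ) + 1)/((p:ℝ)+1), by positivity⟩ with ht
  have ht0 : 0 < t := by
    rw [← NNReal.coe_pos, ht]
    change 0 < ((s:ℝ) + 1)/((p:ℝ)+1)
    positivity
  have htc : (t : ℝ) = ((s:ℝ) + 1)/((p:ℝ)+1) := rfl
  have hcont : Continuous Re := by
    simp only [hRe]
    fun_prop
  have hpos : ∀ ε : ℝ, 0 ≤ ε → 0 ≤ Re ε := fun ε hε =>
    add_nonneg hR (smul_nonneg hε zero_le_one)
  have hcomp : ∀ m : ℕ, Continuous fun ε => adjoint V ∘L ((Re ε) ^ m) ∘L V := by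
    intro m
    exact continuous_const.clm_comp ((hcont.pow m).clm_comp continuous_const)
  have hleft : Filter.Tendsto (fun ε => adjoint V ∘L ((Re ε) ^ s) ∘L V)
      (nhdsWithin 0 (Set.Ioi 0)) (nhds (adjoint V ∘L (R ^ s) ∘L V)) := by
    have h1 := (hcomp s).tendsto 0
    have h2 : Re 0 = R := by simp [hRe]
    rw [h2] at h1
    exact h1.mono_left nhdsWithin_le_nhds
  have hpownn : ∀ ε : ℝ, 0 ≤ ε → 0 ≤ (Re ε) ^ p := fun ε hε => by
    rw [← CFC.rpow_natCast (Re ε) p (hpos ε hε)]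
    exact CFC.rpow_nonneg
  have hright : Filter.Tendsto (fun ε => (adjoint V ∘L ((Re ε) ^ p) ∘L V) ^ t)
      (nhdsWithin 0 (Set.Ioi 0)) (nhds ((adjoint V ∘L (R ^ p) ∘L V) ^ t)) := by
    have h2 : Re 0 = R := by simp [hRe]
    have hc := CFC.continuousOn_nnrpow (A := H →L[ℂ] H) t
    have h0 : 0 ≤ adjoint V ∘L (R ^ p) ∘L V := by
      have := hpownn 0 le_rfl
      rw [h2] at this
      exact conj_nonneg V this
    have h3 := hc _ h0
    have h4 : Filter.Tendsto (fun ε => adjoint V ∘L ((Re ε) ^ p) ∘L V)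
        (nhdsWithin 0 (Set.Ioi 0))
        (nhdsWithin (adjoint V ∘L (R ^ p) ∘L V) {a : H →L[ℂ] H | 0 ≤ a}) := by
      refine tendsto_nhdsWithin_iff.mpr ⟨?_, ?_⟩
      · have h1 := (hcomp p).tendsto 0
        rw [h2] at h1
        exact h1.mono_left nhdsWithin_le_nhds
      · filter_upwards [self_mem_nhdsWithin] with ε hε
        exact conj_nonneg V (hpownn ε (le_of_lt hε))
    exact h3.tendsto.comp h4
  have hle : ∀ᶠ ε in nhdsWithin (0:ℝ) (Set.Ioi 0), adjoint V ∘L ((Re ε) ^ s) ∘L V ≤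
      (adjoint V ∘L ((Re ε) ^ p) ∘L V) ^ t := by
    filter_upwards [self_mem_nhdsWithin] with ε hε
    have hε' : 0 < ε := hε
    have hstr : IsStrictlyPositive (Re ε) :=
      IsStrictlyPositive.nonneg_add hR (IsStrictlyPositive.smul hε' isStrictlyPositive_one)
    have hVe : V ∘L adjoint V ≤ Re ε :=
      hV.trans (le_add_of_nonneg_right (smul_nonneg hε'.le zero_le_one))
    have := star3_strict hstr hVe hsp
    rw [CFC.nnrpow_eq_rpow ht0, htc]
    exact this
  have := le_of_tendsto_of_tendsto hleft hright hle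
  rw [CFC.nnrpow_eq_rpow ht0, htc] at this
  exact this

end R923.SQ
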