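import Pool.Agent.R923.SQ.A4

open scoped InnerProductSpace NNReal ComplexOrder
open ContinuousLinearMap

namespace R923.SQ

variable {H : Type*} [NormedAddCommGroup H] [InnerProductSpace ℂ H] [CompleteSpace H]
  {ι : Type*} [Fintype ι]

/-- `Θ(X) = ∑ T_i^* X T_i` -/
noncomputable def Theta (T : ι → H →L[ℂ] H) (X : H →L[ℂ] H) : H →L[ℂ] H :=
  ∑ i, adjoint (T i) * X * T i

lemma Theta_apply (T : ι → H →L[ℂ] H) (X : H →L[ℂ] H) (x : H) :
    Theta T X x = ∑ i, adjoint (T i) (X (T i x)) := by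
  simp [Theta, ContinuousLinearMap.sum_apply]

lemma Theta_sub (T : ι → H →L[ℂ] H) (X Y : H →L[ℂ] H) :
    Theta T (X - Y) = Theta T X - Theta T Y := by
  simp only [Theta, mul_sub, sub_mul, Finset.sum_sub_distrib]

lemma Theta_mono (T : ι → H →L[ℂ] H) {X Y : H →L[ℂ] H} (h : X ≤ Y) :
    Theta T X ≤ Theta T Y := by
  refine Finset.sum_le_sum fun i _ => ?_
  exact conj_mono (T i) h

lemma Theta_nonneg (T : ι → H →L[ℂ] H) {X : H →L[ℂ] H} (h : 0 ≤ X) :
    0 ≤ Theta T X := Finset.sum_nonneg fun i _ => conj_nonneg (T i) h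

/-- the row-contraction type inequality which follows from joint hyponormality -/
def RowBound (T : ι → H →L[ℂ] H) : Prop :=
  ∀ x : ι → H, ‖∑ j, adjoint (T j) (x j)‖ ^ 2 ≤ ∑ j, RCLike.re ⟪Theta T 1 (x j), x j⟫_ℂ

lemma exists_dilation (T : ι → H →L[ℂ] H) (hT : RowBound T) :
    ∃ (V : H →L[ℂ] PiLp 2 (fun _ : ι => H))
      (diag : (H →L[ℂ] H) → (PiLp 2 (fun _ : ι => H) →L[ℂ] PiLp 2 (fun _ : ι => H))),
      (∀ (r : H →L[ℂ] H) (s : ℕ), diag (r ^ s) = (diag r) ^ s) ∧
      (∀ r : H →L[ℂ] H, 0 ≤ r → 0 ≤ diag r) ∧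
      (∀ r s : H →L[ℂ] H, r ≤ s → diag r ≤ diag s) ∧
      (∀ r : H →L[ℂ] H, adjoint V ∘L (diag r) ∘L V = Theta T r) ∧
      V ∘L adjoint V ≤ diag (Theta T 1) := by
  classical
  let e : (ι → H) ≃L[ℂ] PiLp 2 (fun _ : ι => H) :=
    (PiLp.continuousLinearEquiv 2 ℂ (fun _ : ι => H)).symm
  let J : ι → H →L[ℂ] PiLp 2 (fun _ : ι => H) := fun i =>
    e.toContinuousLinearMap ∘L (ContinuousLinearMap.single ℂ (fun _ : ι => H) i)
  have hJ : ∀ i v j, (J i v) j = if j = i then v else 0 := by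
    intro i v j
    simp [J, e, Pi.single_apply]
  have hJadj : ∀ i (y : PiLp 2 (fun _ : ι => H)), adjoint (J i) y = y i := by
    intro i y
    refine ext_inner_left ℂ fun v => ?_
    rw [adjoint_inner_right, PiLp.inner_apply]
    simp only [hJ]
    rw [Finset.sum_eq_single i]
    · simp
    · intro j _ hj; simp [hj]
    · simp
  let V : H →L[ℂ] PiLp 2 (fun _ : ι => H) := ∑ i, J i ∘L T i
  have hV : ∀ x i, (V x) i = T i x := by
    intro x i
    simp only [V, ContinuousLinearMap.sum_apply, ContinuousLinearMap.comp_apply]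
    rw [← hJadj i, map_sum]
    simp only [hJadj, hJ]
    simp
  have hVadj : ∀ y : PiLp 2 (fun _ : ι => H), adjoint V y = ∑ i, adjoint (T i) (y i) := by
    intro y
    refine ext_inner_left ℂ fun v => ?_
    rw [adjoint_inner_right, PiLp.inner_apply, inner_sum]
    refine Finset.sum_congr rfl fun i _ => ?_
    rw [hV, adjoint_inner_right]
  let diag : (H →L[ℂ] H) → (PiLp 2 (fun _ : ι => H) →L[ℂ] PiLp 2 (fun _ : ι => H)) :=
    fun r => ∑ i, J i ∘L r ∘L adjoint (J i)
  have hdiag : ∀ r y i, (diag r y) i = r (y i) := by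
    intro r y i
    simp only [diag, ContinuousLinearMap.sum_apply, ContinuousLinearMap.comp_apply]
    rw [← hJadj i, map_sum]
    simp only [hJadj, hJ]
    simp
  have hpos : ∀ r : H →L[ℂ] H, 0 ≤ r → 0 ≤ diag r := by
    intro r hr
    refine Finset.sum_nonneg fun i _ => ?_
    have := conj_nonneg (adjoint (J i)) hr
    rwa [adjoint_adjoint] at this
  have hsub : ∀ r s : H →L[ℂ] H, diag (s - r) = diag s - diag r := by
    intro r s
    simp only [diag, ContinuousLinearMap.sub_comp, ContinuousLinearMap.comp_sub,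
      Finset.sum_sub_distrib]
  have hmono : ∀ r s : H →L[ℂ] H, r ≤ s → diag r ≤ diag s := by
    intro r s hrs
    have := hpos (s - r) (sub_nonneg.mpr hrs)
    rw [hsub] at this
    exact sub_nonneg.mp this
  refine ⟨V, diag, ?_, hpos, hmono, ?_, ?_⟩
  · intro r s
    induction s with
    | zero =>
      ext y i
      rw [hdiag]
      simp
    | succ s ih =>
      ext y i
      rw [pow_succ, pow_succ, ← ih, hdiag, ContinuousLinearMap.mul_apply,
        ContinuousLinearMap.mul_apply, hdiag, hdiag]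
  · intro r
    ext x
    rw [ContinuousLinearMap.comp_apply, ContinuousLinearMap.comp_apply, hVadj, Theta_apply]
    refine Finset.sum_congr rfl fun i _ => ?_
    rw [hdiag, hV]
  · rw [ContinuousLinearMap.le_def]
    have hB : 0 ≤ Theta T 1 := Theta_nonneg T zero_le_one
    refine ContinuousLinearMap.isPositive_def.mpr ⟨?_, fun y => ?_⟩
    · refine ContinuousLinearMap.isSelfAdjoint_iff_isSymmetric.mp ?_
      refine IsSelfAdjoint.sub (hpos _ hB).isSelfAdjoint ?_
      rw [ContinuousLinearMap.isSelfAdjoint_iff', ContinuousLinearMap.adjoint_comp, adjoint_adjoint]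
    · rw [ContinuousLinearMap.reApplyInnerSelf_apply, ContinuousLinearMap.sub_apply, inner_sub_left,
        map_sub, ContinuousLinearMap.comp_apply]
      have h1 : RCLike.re ⟪V (adjoint V y), y⟫_ℂ = ‖adjoint V y‖ ^ 2 := by
        rw [← adjoint_inner_right, inner_self_eq_norm_sq]
      have h2 : RCLike.re ⟪diag (Theta T 1) y, y⟫_ℂ = ∑ j, RCLike.re ⟪Theta T 1 (y j), y j⟫_ℂ := by
        rw [PiLp.inner_apply, map_sum]
        refine Finset.sum_congr rfl fun i _ => ?_
        rw [hdiag]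
      rw [h1, h2, hVadj]
      have := hT (fun j => y j)
      linarith

lemma keyF (T : ι → H →L[ℂ] H) (hT : RowBound T) {r : H →L[ℂ] H} (hr : Theta T 1 ≤ r)
    {s q : ℕ} (hsq : s ≤ q) :
    Theta T (r ^ s) ≤ (Theta T (r ^ q)) ^ (((s:ℝ) + 1)/((q:ℝ)+1)) := by
  obtain ⟨V, diag, h1, h2, h3, h4, h5⟩ := exists_dilation T hT
  have hB : 0 ≤ Theta T 1 := Theta_nonneg T zero_le_one
  have hr0 : 0 ≤ r := hB.trans hr
  have := star3 (h2 r hr0) (h5.trans (h3 _ _ hr)) hsq
  rw [← h1, ← h1, h4, h4] at this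
  exact this

/-- `B^2 ≤ Θ(B)` -/
lemma sq_le_Theta (T : ι → H →L[ℂ] H) (hT : RowBound T) :
    Theta T 1 * Theta T 1 ≤ Theta T (Theta T 1) := by
  obtain ⟨V, diag, h1, h2, h3, h4, h5⟩ := exists_dilation T hT
  have hd1 : diag 1 = 1 := by
    have := h1 1 0
    simpa using this
  have hVV : adjoint V ∘L V = Theta T 1 := by
    have := h4 1
    rw [hd1] at this
    rw [← this]
    ext x
    simp
  have := conj_mono V h5
  rw [h4] at this
  refine le_trans (le_of_eq ?_) this
  ext x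
  have h6 : ∀ x, adjoint V (V x) = Theta T 1 x := fun x => by
    have := congrArg (fun L : H →L[ℂ] H => L x) hVV
    simpa using this
  simp only [ContinuousLinearMap.comp_apply, ContinuousLinearMap.mul_apply, h6]

end R923.SQ
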