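import Pool.Agent.R923.SQ.A5

open scoped InnerProductSpace NNReal ComplexOrder
open ContinuousLinearMap

namespace R923.SQ

variable {H : Type*} [NormedAddCommGroup H] [InnerProductSpace ℂ H] [CompleteSpace H]
  {ι : Type*} [Fintype ι]

/-- the `(q+1)`-th root -/
noncomputable def root (q : ℕ) (A : H →L[ℂ] H) : H →L[ℂ] H := A ^ (1/((q:ℝ)+1))

lemma root_nonneg (q : ℕ) (A : H →L[ℂ] H) : 0 ≤ root q A := CFC.rpow_nonneg

lemma root_pow (q s : ℕ) {A : H →L[ℂ] H} (hA : 0 ≤ A) :
    (root q A) ^ (s+1) = A ^ (((s:ℝ)+1)/((q:ℝ)+1)) := by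
  rw [← CFC.rpow_natCast (root q A) (s+1) (root_nonneg q A), root,
    CFC.rpow_rpow_of_exponent_nonneg A _ _ (by positivity) (by positivity) hA]
  congr 1
  push_cast
  ring

lemma root_pow_self (q : ℕ) {A : H →L[ℂ] H} (hA : 0 ≤ A) :
    (root q A) ^ (q+1) = A := by
  rw [root_pow q q hA, div_self (by positivity), CFC.rpow_one A hA]

lemma root_of_pow (q : ℕ) {A : H →L[ℂ] H} (hA : 0 ≤ A) :
    root q (A ^ (q+1)) = A := by
  rw [← CFC.rpow_natCast A (q+1) hA, root,
    CFC.rpow_rpow_of_exponent_nonneg A _ _ (by positivity) (by positivity) hA]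
  have : ((q+1 : ℕ) : ℝ) * (1/((q:ℝ)+1)) = 1 := by
    push_cast
    field_simp
  rw [this, CFC.rpow_one A hA]

lemma pow_nonneg' {A : H →L[ℂ] H} (hA : 0 ≤ A) (n : ℕ) : 0 ≤ A ^ n := by
  rw [← CFC.rpow_natCast A n hA]
  exact CFC.rpow_nonneg

lemma keyF' (T : ι → H →L[ℂ] H) (hT : RowBound T) {r : H →L[ℂ] H} (hr : Theta T 1 ≤ r)
    {s q : ℕ} (hsq : s ≤ q) :
    Theta T (r ^ s) ≤ (root q (Theta T (r ^ q))) ^ (s+1) := by
  have hB : 0 ≤ Theta T 1 := Theta_nonneg T zero_le_one
  have hr0 : 0 ≤ r := hB.trans hr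
  rw [root_pow q s (Theta_nonneg T (pow_nonneg' hr0 q))]
  exact keyF T hT hr hsq

lemma iter_nonneg (T : ι → H →L[ℂ] H) {X : H →L[ℂ] H} (hX : 0 ≤ X) (n : ℕ) :
    0 ≤ (Theta T)^[n] X := by
  induction n with
  | zero => simpa using hX
  | succ n ih => rw [Function.iterate_succ_apply']; exact Theta_nonneg T ih

/-- first chain: `B ≤ Θ^{q+1}(1)^{1/(q+1)}` -/
lemma chain_one (T : ι → H →L[ℂ] H) (hT : RowBound T) (q : ℕ) :
    Theta T 1 ≤ root q ((Theta T)^[q+1] 1) := by
  induction q with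
  | zero =>
    have h := root_of_pow (H := H) 0 (Theta_nonneg T (zero_le_one (α := H →L[ℂ] H)))
    simp only [zero_add, pow_one] at h
    simp only [zero_add, Function.iterate_one]
    rw [h]
  | succ q ih =>
    have h := keyF' T hT ih (Nat.zero_le (q+1))
    rw [root_pow_self q (iter_nonneg T zero_le_one _), ← Function.iterate_succ_apply' (Theta T)] at h
    simpa using h

lemma conj_eq_zero {X : H →L[ℂ] H} (hX : 0 ≤ X) (Y : H →L[ℂ] H)
    (h : adjoint Y * X * Y = 0) : X * Y = 0 := by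
  have h1 : star (CFC.sqrt X * Y) * (CFC.sqrt X * Y) = 0 := by
    rw [star_mul, (CFC.sqrt_nonneg X).isSelfAdjoint.star_eq, ContinuousLinearMap.star_eq_adjoint]
    calc adjoint Y * CFC.sqrt X * (CFC.sqrt X * Y) = adjoint Y * (CFC.sqrt X * CFC.sqrt X) * Y := by
          noncomm_ring
      _ = 0 := by rw [CFC.sqrt_mul_sqrt_self X hX, h]
  have h2 := (CStarRing.star_mul_self_eq_zero_iff _).mp h1
  calc X * Y = CFC.sqrt X * (CFC.sqrt X * Y) := by
        rw [← mul_assoc, CFC.sqrt_mul_sqrt_self X hX]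
    _ = 0 := by rw [h2, mul_zero]

lemma adj_of_nonneg {X : H →L[ℂ] H} (hX : 0 ≤ X) : adjoint X = X := by
  have := hX.isSelfAdjoint.star_eq
  rwa [ContinuousLinearMap.star_eq_adjoint] at this

/-- second chain -/
noncomputable def chain (T : ι → H →L[ℂ] H) (p : ℕ) (C : H →L[ℂ] H) : ℕ → H →L[ℂ] H
  | 0 => C
  | (j+1) => root (p+j) (Theta T ((chain T p C j) ^ (p+j)))

lemma chain_facts (T : ι → H →L[ℂ] H) (hT : RowBound T) (p : ℕ) {C : H →L[ℂ] H}
    (hC : Theta T 1 ≤ C) (j : ℕ) :
    Theta T 1 ≤ chain T p C j ∧ (chain T p C j) ^ (p+j) = (Theta T)^[j] (C ^ p) := by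
  have hB : 0 ≤ Theta T 1 := Theta_nonneg T zero_le_one
  induction j with
  | zero => exact ⟨hC, by simp [chain]⟩
  | succ j ih =>
    obtain ⟨h1, h2⟩ := ih
    refine ⟨?_, ?_⟩
    · have := keyF' T hT h1 (Nat.zero_le (p+j))
      simpa [chain] using this
    · rw [Function.iterate_succ_apply', ← h2]
      change (root (p+j) (Theta T ((chain T p C j) ^ (p+j)))) ^ (p+j+1) = _
      rw [root_pow_self (p+j) (Theta_nonneg T (pow_nonneg' (hB.trans h1) _))]

lemma chain_sandwich (T : ι → H →L[ℂ] H) (hT : RowBound T) (p : ℕ) {C : H →L[ℂ] H}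
    (hC : Theta T 1 ≤ C) (j : ℕ) :
    (Theta T)^[j] 1 ≤ (chain T p C j) ^ j := by
  induction j with
  | zero => simp
  | succ j ih =>
    rw [Function.iterate_succ_apply']
    refine (Theta_mono T ih).trans ?_
    exact keyF' T hT (chain_facts T hT p hC j).1 (Nat.le_add_left j p)

/-- the algebraic core -/
theorem core (T : ι → H →L[ℂ] H) (hT : RowBound T) (p : ℕ) (hp : 1 ≤ p)
    (hyp : ∀ C : H →L[ℂ] H, 0 ≤ C → C ^ (p+1) = (Theta T)^[p+1] 1 →
      (Theta T)^[p+1] (C ^ p) = C ^ (2*p+1)) (i : ι) :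
    T i * Theta T 1 = Theta T 1 * T i := by
  set B := Theta T 1 with hBdef
  have hB0 : 0 ≤ B := Theta_nonneg T zero_le_one
  set C := root p ((Theta T)^[p+1] 1) with hCdef
  have hA0 : 0 ≤ (Theta T)^[p+1] (1 : H →L[ℂ] H) := iter_nonneg T zero_le_one _
  have hC0 : 0 ≤ C := root_nonneg _ _
  have hCp : C ^ (p+1) = (Theta T)^[p+1] 1 := root_pow_self p hA0
  have hBC : B ≤ C := chain_one T hT p
  have hCyc := hyp C hC0 hCp
  have hfin : chain T p C (p+1) = C := by
    obtain ⟨h1, h2⟩ := chain_facts T hT p hBC (p+1)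
    rw [hCyc] at h2
    have e : p + (p+1) = 2*p+1 := by ring
    rw [e] at h2
    rw [← root_of_pow (2*p) (hB0.trans h1), h2, root_of_pow (2*p) hC0]
  set R := chain T p C p with hR
  obtain ⟨hBR, -⟩ := chain_facts T hT p hBC p
  have hR0 : 0 ≤ R := hB0.trans hBR
  -- `Θ(R^p) = C^{p+1}`
  have e1 : Theta T (R ^ p) = C ^ (p+1) := by
    refine le_antisymm ?_ ?_
    · have := keyF' T hT hBR (Nat.le_add_left p p)
      have h2 : chain T p C (p+1) = root (p+p) (Theta T (R ^ (p+p))) := rfl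
      rw [← hR, ← h2, hfin] at this
      exact this
    · rw [hCp, Function.iterate_succ_apply']
      exact Theta_mono T (chain_sandwich T hT p hBC p)
  have e2 : Theta T (R ^ (p+p)) = C ^ (2*p+1) := by
    have h2 : chain T p C (p+1) = root (p+p) (Theta T (R ^ (p+p))) := rfl
    have h3 := root_pow_self (p+p) (Theta_nonneg T (pow_nonneg' hR0 (p+p)))
    rw [← h2, hfin] at h3
    rw [← h3]
    congr 1
    ring
  have hRp := pow_nonneg' hR0 p
  have hCpn := pow_nonneg' hC0 p
  -- the defect identity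
  have hG : ∑ i, adjoint (R ^ p * T i - T i * C ^ p) * (R ^ p * T i - T i * C ^ p)
      = - (C ^ p * (C - B) * C ^ p) := by
    have h1 : ∀ i, adjoint (R ^ p * T i - T i * C ^ p) * (R ^ p * T i - T i * C ^ p) =
        adjoint (T i) * R ^ (p+p) * T i - (adjoint (T i) * R ^ p * T i) * C ^ p
          - C ^ p * (adjoint (T i) * R ^ p * T i) + C ^ p * (adjoint (T i) * 1 * T i) * C ^ p := by
      intro i
      have ha : adjoint (R ^ p * T i - T i * C ^ p) =
          adjoint (T i) * R ^ p - C ^ p * adjoint (T i) := by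
        rw [map_sub]
        have a1 : adjoint (R ^ p * T i) = adjoint (T i) * adjoint (R ^ p) :=
          ContinuousLinearMap.adjoint_comp _ _
        have a2 : adjoint (T i * C ^ p) = adjoint (C ^ p) * adjoint (T i) :=
          ContinuousLinearMap.adjoint_comp _ _
        rw [a1, a2, adj_of_nonneg hRp, adj_of_nonneg hCpn]
      rw [ha, pow_add]
      noncomm_ring
    simp only [h1, Finset.sum_add_distrib, Finset.sum_sub_distrib, ← Finset.sum_mul,
      ← Finset.mul_sum]
    change Theta T (R ^ (p+p)) - Theta T (R ^ p) * C ^ p - C ^ p * Theta T (R ^ p)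
      + C ^ p * Theta T 1 * C ^ p = _
    rw [e1, e2, ← hBdef]
    have c1 : C ^ (2*p+1) = C ^ p * C * C ^ p := by
      rw [← pow_succ, ← pow_add]; congr 1; ring
    have c2 : C ^ (p+1) * C ^ p = C ^ p * C * C ^ p := by rw [pow_succ]
    have c3 : C ^ p * C ^ (p+1) = C ^ p * C * C ^ p := by rw [pow_succ']; noncomm_ring
    rw [c1, c2, c3]
    noncomm_ring
  have hD0 : 0 ≤ C - B := sub_nonneg.mpr hBC
  have hDconj : 0 ≤ C ^ p * (C - B) * C ^ p := by
    have := conj_nonneg (C ^ p) hD0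
    rw [adj_of_nonneg hCpn] at this
    exact this
  have hGnn : ∀ i ∈ (Finset.univ : Finset ι),
      0 ≤ adjoint (R ^ p * T i - T i * C ^ p) * (R ^ p * T i - T i * C ^ p) := by
    intro i _
    have := star_mul_self_nonneg (R ^ p * T i - T i * C ^ p)
    rwa [ContinuousLinearMap.star_eq_adjoint] at this
  have hsum0 : ∑ i, adjoint (R ^ p * T i - T i * C ^ p) * (R ^ p * T i - T i * C ^ p) = 0 := by
    refine le_antisymm ?_ (Finset.sum_nonneg hGnn)
    rw [hG]
    exact neg_nonpos.mpr hDconj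
  have hGz : ∀ i, R ^ p * T i = T i * C ^ p := by
    intro i
    have h1 := (Finset.sum_eq_zero_iff_of_nonneg hGnn).mp hsum0 i (Finset.mem_univ i)
    rw [← ContinuousLinearMap.star_eq_adjoint] at h1
    exact sub_eq_zero.mp ((CStarRing.star_mul_self_eq_zero_iff _).mp h1)
  have hDz : C ^ p * (C - B) * C ^ p = 0 := by
    rw [hsum0] at hG
    exact neg_eq_zero.mp hG.symm
  -- `C = B`
  have hDC : (C - B) * C ^ p = 0 := by
    refine conj_eq_zero hD0 (C ^ p) ?_
    rw [adj_of_nonneg hCpn]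
    exact hDz
  have hCD : C ^ p * (C - B) = 0 := by
    have h1 : adjoint ((C - B) * C ^ p) = adjoint (C ^ p) * adjoint (C - B) :=
      ContinuousLinearMap.adjoint_comp _ _
    rw [hDC, map_zero, adj_of_nonneg hCpn, adj_of_nonneg hD0] at h1
    exact h1.symm
  have hdesc : ∀ k : ℕ, 1 ≤ k → C ^ (k+1) * (C - B) = 0 → C ^ k * (C - B) = 0 := by
    intro k hk h
    have h1 : star (C ^ k * (C - B)) * (C ^ k * (C - B)) = 0 := by
      rw [star_mul, (pow_nonneg' hC0 k).isSelfAdjoint.star_eq, hD0.isSelfAdjoint.star_eq]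
      have h2 : C ^ k * C ^ k = C ^ (k-1) * C ^ (k+1) := by
        rw [← pow_add, ← pow_add]; congr 1; omega
      calc (C - B) * C ^ k * (C ^ k * (C - B)) = (C - B) * (C ^ k * C ^ k) * (C - B) := by
            simp only [mul_assoc]
        _ = (C - B) * C ^ (k-1) * (C ^ (k+1) * (C - B)) := by rw [h2]; simp only [mul_assoc]
        _ = 0 := by rw [h, mul_zero]
    exact (CStarRing.star_mul_self_eq_zero_iff _).mp h1
  have hCD1 : C * (C - B) = 0 := by
    have : ∀ k : ℕ, C ^ (k+1) * (C - B) = 0 → C * (C - B) = 0 := by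
      intro k
      induction k with
      | zero => intro h; simpa using h
      | succ k ih => intro h; exact ih (hdesc (k+1) (by omega) h)
    obtain ⟨k, rfl⟩ : ∃ k, p = k + 1 := ⟨p - 1, by omega⟩
    exact this k hCD
  have hDzero : C - B = 0 := by
    have h1 : (C - B) * (C - B) * (C - B) ≤ (C - B) * C * (C - B) := by
      have h2 : C - B ≤ C := sub_le_self C hB0
      have := conj_mono (C - B) h2
      rw [adj_of_nonneg hD0] at this
      exact this
    rw [mul_assoc (C - B) C, hCD1, mul_zero] at h1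
    have h3 : 0 ≤ (C - B) * (C - B) * (C - B) := by
      have := conj_nonneg (C - B) hD0
      rw [adj_of_nonneg hD0] at this
      exact this
    have h4 : (C - B) * (C - B) * (C - B) = 0 := le_antisymm h1 h3
    have h5 : (C - B) * (C - B) = 0 := by
      refine conj_eq_zero hD0 (C - B) ?_
      rw [adj_of_nonneg hD0]
      exact h4
    have h6 : star (C - B) * (C - B) = 0 := by
      rw [hD0.isSelfAdjoint.star_eq]; exact h5
    exact (CStarRing.star_mul_self_eq_zero_iff _).mp h6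
  have hCB : C = B := sub_eq_zero.mp hDzero
  -- `R T_i = T_i B`
  have hRT : ∀ i, R * T i = T i * B := by
    intro i
    have h1 := hGz i
    rw [hCB] at h1
    have h2 := rpow_intertwine (S := T i) (pow_nonneg' hR0 p) (pow_nonneg' hB0 p) h1
      (t := 1/(p:ℝ)) (by positivity)
    have hp0 : (p:ℝ) ≠ 0 := by positivity
    rw [← CFC.rpow_natCast R p hR0, ← CFC.rpow_natCast B p hB0,
      CFC.rpow_rpow_of_exponent_nonneg R _ _ (by positivity) (by positivity) hR0,
      CFC.rpow_rpow_of_exponent_nonneg B _ _ (by positivity) (by positivity) hB0,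
      mul_one_div_cancel hp0, CFC.rpow_one R hR0, CFC.rpow_one B hB0] at h2
    exact h2
  have hRB0 : 0 ≤ R - B := sub_nonneg.mpr hBR
  have hsum1 : ∑ i, adjoint (T i) * (R - B) * T i = 0 := by
    refine le_antisymm ?_ (Theta_nonneg T hRB0)
    change Theta T (R - B) ≤ 0
    rw [Theta_sub]
    have h1 : Theta T R = B * B := by
      have : Theta T R = (∑ i, adjoint (T i) * 1 * T i) * B := by
        rw [Theta, Finset.sum_mul]
        refine Finset.sum_congr rfl fun i _ => ?_
        rw [mul_assoc, hRT i, mul_one, mul_assoc]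
      rw [this]
      rfl
    rw [h1]
    exact sub_nonpos.mpr (sq_le_Theta T hT)
  have hz : ∀ i, (R - B) * T i = 0 := by
    intro i
    refine conj_eq_zero hRB0 (T i) ?_
    exact (Finset.sum_eq_zero_iff_of_nonneg (fun i _ => conj_nonneg (T i) hRB0)).mp hsum1 i
      (Finset.mem_univ i)
  have h1 := hz i
  rw [sub_mul, hRT i] at h1
  exact sub_eq_zero.mp h1

end R923.SQ
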